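import Mathlib

set_option autoImplicit false

/-!
# Rainbow matchings in bipartite graphs of bounded maximum degree: counterexamples

Author of this construction and of this file: helper411 (first landed as
`MP_3ec6a8_co/NoRainbowMatching`); moved to a library file by helper870.

For all `d ≥ 1` and all `k ≥ 2 d` there are `k` bipartite graphs with a common bipartition, with
maximum degree at most `d` and with more than `(k - 1) d` edges each, that have no rainbow matching.

Idea.  Both sides are copies of one set `A` of size `k`, so a rainbow matching would be perfect.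
Label the vertices by integers, the same way on both sides.  All graphs but one join only vertices
with the same label and the last one joins only vertices with different labels.  Summing the labels
of both ends over a rainbow matching gives a contradiction.
-/

namespace Pool.Agent.Y870.RM

open Finset

/-- The graph on `A ⊕ A` that joins `inl a` to `inr b` exactly when `b ∈ N a`. -/
def bip {A : Type} (N : A → Finset A) : SimpleGraph (A ⊕ A) where
  Adj u v := (∃ a b, u = Sum.inl a ∧ v = Sum.inr b ∧ b ∈ N a) ∨
    (∃ a b, v = Sum.inl a ∧ u = Sum.inr b ∧ b ∈ N a)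
  symm := ⟨fun u v h => by
    rcases h with h | h
    · exact Or.inr h
    · exact Or.inl h⟩
  loopless := ⟨fun u h => by
    rcases h with ⟨a, b, h1, h2, -⟩ | ⟨a, b, h1, h2, -⟩ <;> rw [h1] at h2 <;> simp at h2⟩

theorem bip_inl {A : Type} (N : A → Finset A) (a : A) :
    (bip N).neighborSet (Sum.inl a) = Sum.inr '' (N a : Set A) := by
  ext v
  simp only [SimpleGraph.mem_neighborSet, bip, Set.mem_image, Finset.mem_coe]
  constructor
  · rintro (⟨a', b, h1, h2, h3⟩ | ⟨a', b, h1, h2, h3⟩)
    · obtain rfl : a = a' := by simpa using h1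
      exact ⟨b, h3, h2.symm⟩
    · simp at h2
  · rintro ⟨b, hb, rfl⟩
    exact Or.inl ⟨a, b, rfl, rfl, hb⟩

theorem bip_inr {A : Type} (N : A → Finset A) (b : A) :
    (bip N).neighborSet (Sum.inr b) = Sum.inl '' {a | b ∈ N a} := by
  ext v
  simp only [SimpleGraph.mem_neighborSet, bip, Set.mem_image, Set.mem_ofPred_eq]
  constructor
  · rintro (⟨a', b', h1, h2, h3⟩ | ⟨a', b', h1, h2, h3⟩)
    · simp at h1
    · obtain rfl : b = b' := by simpa using h2
      exact ⟨a', h3, h1.symm⟩
  · rintro ⟨a, ha, rfl⟩
    exact Or.inr ⟨a, b, rfl, rfl, ha⟩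

theorem bip_edges {A : Type} [Fintype A] [DecidableEq A] (N : A → Finset A) :
    (bip N).edgeSet.ncard = ∑ a, (N a).card := by
  have h : (bip N).edgeSet =
      (fun p : (_ : A) × A => s(Sum.inl p.1, Sum.inr p.2)) ''
        ((univ.sigma N : Finset ((_ : A) × A)) : Set ((_ : A) × A)) := by
    ext e
    induction e using Sym2.ind with
    | _ u v =>
      simp only [SimpleGraph.mem_edgeSet, bip, Set.mem_image, Finset.mem_coe, Finset.mem_sigma,
        Finset.mem_univ, true_and, Sym2.eq_iff]
      constructor
      · rintro (⟨a, b, h1, h2, h3⟩ | ⟨a, b, h1, h2, h3⟩)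
        · exact ⟨⟨a, b⟩, h3, Or.inl ⟨h1.symm, h2.symm⟩⟩
        · exact ⟨⟨a, b⟩, h3, Or.inr ⟨h1.symm, h2.symm⟩⟩
      · rintro ⟨⟨a, b⟩, h3, h1 | h1⟩
        · exact Or.inl ⟨a, b, h1.1.symm, h1.2.symm, h3⟩
        · exact Or.inr ⟨a, b, h1.1.symm, h1.2.symm, h3⟩
  rw [h, Set.ncard_image_of_injective, Set.ncard_coe_finset, Finset.card_sigma]
  rintro ⟨a, b⟩ ⟨a', b'⟩ h
  simp only [Sym2.eq_iff, Sum.inl.injEq, Sum.inr.injEq, reduceCtorEq, and_self, or_false] at h
  obtain ⟨rfl, rfl⟩ := h
  rfl

/-- The label argument: if one graph changes labels and all others keep them, no rainbow perfect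
matching exists. -/
theorem no_rainbow {A : Type} [Fintype A] [DecidableEq A] {k : ℕ} (hk : Fintype.card A = k)
    (N : Fin k → A → Finset A) (φ : A → ℤ) (i₀ : Fin k)
    (hG : ∀ i, i ≠ i₀ → ∀ a, ∀ b ∈ N i a, φ b = φ a)
    (hH : ∀ a, ∀ b ∈ N i₀ a, φ b ≠ φ a) :
    ¬ ∃ e : Fin k → Sym2 (A ⊕ A), (∀ i, e i ∈ (bip (N i)).edgeSet) ∧
      ∀ i j, i ≠ j → ∀ v, ¬ (v ∈ e i ∧ v ∈ e j) := by
  rintro ⟨e, he, hd⟩
  have h1 : ∀ i, ∃ p : A × A, e i = s(Sum.inl p.1, Sum.inr p.2) ∧ p.2 ∈ N i p.1 := by
    intro i
    have := he i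
    revert this
    induction e i using Sym2.ind with
    | _ u v =>
      intro h
      rcases h with ⟨a, b, h1, h2, h3⟩ | ⟨a, b, h1, h2, h3⟩
      · have h1 : u = Sum.inl a := h1
        have h2 : v = Sum.inr b := h2
        exact ⟨(a, b), by rw [h1, h2], h3⟩
      · have h1 : v = Sum.inl a := h1
        have h2 : u = Sum.inr b := h2
        exact ⟨(a, b), by rw [h1, h2, Sym2.eq_swap], h3⟩
  choose p hp hN using h1
  have ha : Function.Injective fun i => (p i).1 := by
    intro i j hij
    by_contra hne
    refine hd i j hne (Sum.inl (p i).1) ⟨?_, ?_⟩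
    · rw [hp i]; simp
    · rw [hp j]; simp only at hij; rw [hij]; simp
  have hb : Function.Injective fun i => (p i).2 := by
    intro i j hij
    by_contra hne
    refine hd i j hne (Sum.inr (p i).2) ⟨?_, ?_⟩
    · rw [hp i]; simp
    · rw [hp j]; simp only at hij; rw [hij]; simp
  have hcard : Fintype.card (Fin k) = Fintype.card A := by simp [hk]
  have hab : Function.Bijective fun i => (p i).1 :=
    (Fintype.bijective_iff_injective_and_card _).2 ⟨ha, hcard⟩
  have hbb : Function.Bijective fun i => (p i).2 :=
    (Fintype.bijective_iff_injective_and_card _).2 ⟨hb, hcard⟩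
  have e1 : ∑ i, φ (p i).1 = ∑ a, φ a := hab.sum_comp φ
  have e2 : ∑ i, φ (p i).2 = ∑ a, φ a := hbb.sum_comp φ
  have e3 : ∑ i, (φ (p i).2 - φ (p i).1) = 0 := by
    rw [Finset.sum_sub_distrib, e1, e2, sub_self]
  rw [Finset.sum_eq_single i₀] at e3
  · exact hH _ _ (hN i₀) (sub_eq_zero.1 e3)
  · intro i _ hi
    rw [hG i hi _ _ (hN i), sub_self]
  · intro h; exact absurd (Finset.mem_univ _) h

/-- A family of `k` bipartite graphs on `V` with the common bipartition `side`, of maximum degree
at most `d`, with more than `(k - 1) d` edges each, and without a rainbow matching. -/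
def IsCounterexample (d k : ℕ) (V : Type) (side : V → Bool) (F : Fin k → SimpleGraph V) : Prop :=
  (∀ i u v, (F i).Adj u v → side u ≠ side v) ∧
  (∀ i v, ((F i).neighborSet v).ncard ≤ d) ∧
  (∀ i, (k - 1) * d < (F i).edgeSet.ncard) ∧
  ¬ ∃ e : Fin k → Sym2 V, (∀ i, e i ∈ (F i).edgeSet) ∧
      ∀ i j, i ≠ j → ∀ v, ¬ (v ∈ e i ∧ v ∈ e j)

theorem build {A : Type} [Fintype A] [DecidableEq A] {d k : ℕ} (hk : Fintype.card A = k)
    (hk0 : 0 < k) (G H : A → Finset A) (φ : A → ℤ)
    (hG : ∀ a, ∀ b ∈ G a, φ b = φ a) (hH : ∀ a, ∀ b ∈ H a, φ b ≠ φ a)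
    (hGd : ∀ a, (G a).card ≤ d) (hHd : ∀ a, (H a).card ≤ d)
    (hGd' : ∀ b, {a | b ∈ G a}.ncard ≤ d) (hHd' : ∀ b, {a | b ∈ H a}.ncard ≤ d)
    (hGe : (k - 1) * d < ∑ a, (G a).card) (hHe : (k - 1) * d < ∑ a, (H a).card) :
    ∃ (V : Type) (_ : Fintype V) (side : V → Bool) (F : Fin k → SimpleGraph V),
      IsCounterexample d k V side F := by
  let i₀ : Fin k := ⟨0, hk0⟩
  let N : Fin k → A → Finset A := fun i => if i = i₀ then H else G
  have hN0 : N i₀ = H := by simp [N]
  have hN1 : ∀ i, i ≠ i₀ → N i = G := by intro i hi; simp [N, hi]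
  refine ⟨A ⊕ A, inferInstance, Sum.isLeft, fun i => bip (N i), ?_, ?_, ?_, ?_⟩
  · rintro i u v (⟨a, b, rfl, rfl, -⟩ | ⟨a, b, rfl, rfl, -⟩) <;> simp
  · intro i v
    rcases v with a | b
    · rw [bip_inl, Set.ncard_image_of_injective _ Sum.inr_injective, Set.ncard_coe_finset]
      by_cases hi : i = i₀
      · subst hi; rw [hN0]; exact hHd a
      · rw [hN1 i hi]; exact hGd a
    · rw [bip_inr, Set.ncard_image_of_injective _ Sum.inl_injective]
      by_cases hi : i = i₀
      · subst hi; rw [hN0]; exact hHd' b
      · rw [hN1 i hi]; exact hGd' b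
  · intro i
    rw [bip_edges]
    by_cases hi : i = i₀
    · subst hi; rw [hN0]; exact hHe
    · rw [hN1 i hi]; exact hGe
  · refine no_rainbow hk N φ i₀ ?_ ?_
    · intro i hi a b hb
      rw [hN1 i hi] at hb
      exact hG a b hb
    · intro a b hb
      rw [hN0] at hb
      exact hH a b hb

/-- The base construction on `Bool × ZMod m`. -/
theorem base (d m : ℕ) [NeZero m] (hdm : d ≤ m) :
    ∃ G H : Bool × ZMod m → Finset (Bool × ZMod m),
      (∀ a, ∀ b ∈ G a, b.1 = a.1) ∧ (∀ a, ∀ b ∈ H a, b.1 ≠ a.1) ∧
      (∀ a, (G a).card = d) ∧ (∀ a, (H a).card = d) ∧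
      (∀ b, {a | b ∈ G a}.ncard ≤ d) ∧ (∀ b, {a | b ∈ H a}.ncard ≤ d) := by
  obtain ⟨S, -, hS⟩ := Finset.exists_subset_card_eq
    (s := (univ : Finset (ZMod m))) (n := d) (by simpa [ZMod.card] using hdm)
  have key : ∀ f : Bool → Bool, Function.Injective f →
      ∀ b : Bool × ZMod m,
        {a : Bool × ZMod m | b ∈ S.image fun t => (f a.1, a.2 + t)}.ncard ≤ d := by
    rintro f hf ⟨s, y⟩
    rcases Set.eq_empty_or_nonempty
      {a : Bool × ZMod m | (s, y) ∈ S.image fun t => (f a.1, a.2 + t)} with h | ⟨a₀, h₀⟩
    · rw [h]; simp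
    · obtain ⟨t₀, -, h₀⟩ := Finset.mem_image.1 (show (s, y) ∈ S.image fun t => (f a₀.1, a₀.2 + t)
        from h₀)
      have h1 : f a₀.1 = s := congrArg Prod.fst h₀
      calc _ ≤ ((S.image fun t => (a₀.1, y - t) : Finset (Bool × ZMod m)) :
            Set (Bool × ZMod m)).ncard := by
            refine Set.ncard_le_ncard ?_ (Finset.finite_toSet _)
            rintro ⟨s', x⟩ h
            obtain ⟨t, ht, h⟩ := Finset.mem_image.1
              (show (s, y) ∈ S.image fun t => (f s', x + t) from h)
            have h2 : f s' = s := congrArg Prod.fst h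
            have h3 : x + t = y := congrArg Prod.snd h
            have h4 : s' = a₀.1 := hf (h2.trans h1.symm)
            simp only [Finset.coe_image, Set.mem_image, Finset.mem_coe]
            exact ⟨t, ht, by rw [h4, ← h3]; simp⟩
        _ ≤ d := by
            rw [Set.ncard_coe_finset]
            exact Finset.card_image_le.trans hS.le
  refine ⟨fun a => S.image fun t => (a.1, a.2 + t), fun a => S.image fun t => (!a.1, a.2 + t),
    ?_, ?_, ?_, ?_, key id Function.injective_id, key not Bool.not_injective⟩
  · intro a b hb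
    obtain ⟨t, -, rfl⟩ := Finset.mem_image.1 hb
    rfl
  · intro a b hb
    obtain ⟨t, -, rfl⟩ := Finset.mem_image.1 hb
    simp
  · intro a
    rw [Finset.card_image_of_injective, hS]
    intro t t' h
    simpa using h
  · intro a
    rw [Finset.card_image_of_injective, hS]
    intro t t' h
    simpa using h

theorem even_case (d m : ℕ) (hd : 1 ≤ d) (hdm : d ≤ m) :
    ∃ (V : Type) (_ : Fintype V) (side : V → Bool) (F : Fin (2 * m) → SimpleGraph V),
      IsCounterexample d (2 * m) V side F := by
  haveI : NeZero m := ⟨by omega⟩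
  obtain ⟨G, H, h1, h2, h3, h4, h5, h6⟩ := base d m hdm
  have hcard : Fintype.card (Bool × ZMod m) = 2 * m := by simp [ZMod.card]
  have hlt : (2 * m - 1) * d < 2 * m * d :=
    Nat.mul_lt_mul_of_pos_right (by omega) hd
  refine build hcard (by omega) G H (fun a => if a.1 then 1 else 0) ?_ ?_ (fun a => (h3 a).le)
    (fun a => (h4 a).le) h5 h6 ?_ ?_
  · intro a b hb
    simp only [h1 a b hb]
  · intro a b hb
    have := h2 a b hb
    revert this
    cases b.1 <;> cases a.1 <;> simp
  · simp only [h3, Finset.sum_const, Finset.card_univ, hcard, smul_eq_mul]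
    exact hlt
  · simp only [h4, Finset.sum_const, Finset.card_univ, hcard, smul_eq_mul]
    exact hlt

theorem odd_case (d m : ℕ) (hd : 1 ≤ d) (hdm : d ≤ m) :
    ∃ (V : Type) (_ : Fintype V) (side : V → Bool) (F : Fin (2 * m + 1) → SimpleGraph V),
      IsCounterexample d (2 * m + 1) V side F := by
  haveI : NeZero m := ⟨by omega⟩
  obtain ⟨G, H, h1, h2, h3, h4, h5, h6⟩ := base d m hdm
  let a₀ : Bool × ZMod m := (false, 0)
  obtain ⟨b₀, hb₀⟩ : ∃ b, b ∈ H a₀ := Finset.card_pos.1 (by rw [h4]; omega)
  have hcard : Fintype.card (Option (Bool × ZMod m)) = 2 * m + 1 := by simp [ZMod.card]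
  have hcard' : Fintype.card (Bool × ZMod m) = 2 * m := by simp [ZMod.card]
  let some' : (Bool × ZMod m) ↪ Option (Bool × ZMod m) := Function.Embedding.some
  let G' : Option (Bool × ZMod m) → Finset (Option (Bool × ZMod m)) := fun a =>
    a.elim {none} fun a => (G a).map some'
  let H' : Option (Bool × ZMod m) → Finset (Option (Bool × ZMod m)) := fun a =>
    a.elim {some b₀} fun a =>
      if a = a₀ then insert none (((H a).erase b₀).map some') else (H a).map some'
  let φ : Option (Bool × ZMod m) → ℤ := fun a => a.elim 2 fun a => if a.1 then 1 else 0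
  have hφ2 : ∀ a, φ (some a) ≠ 2 := by
    intro a; simp only [φ, Option.elim]; split_ifs <;> norm_num
  have hφne : ∀ a b : Bool × ZMod m, b.1 ≠ a.1 → φ (some b) ≠ φ (some a) := by
    intro a b; simp only [φ, Option.elim]
    cases b.1 <;> cases a.1 <;> simp
  have hHs : ∀ a, (H' (some a)).card = d := by
    intro a
    simp only [H', Option.elim]
    split_ifs with h
    · subst h
      rw [Finset.card_insert_of_notMem (by simp [some']), Finset.card_map,
        Finset.card_erase_of_mem hb₀, h4]
      omega
    · rw [Finset.card_map, h4]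
  have hGs : ∀ a, (G' (some a)).card = d := by
    intro a
    simp only [G', Option.elim, Finset.card_map, h3]
  have hGn : (G' none).card = 1 := by simp [G']
  have hHn : (H' none).card = 1 := by simp [H']
  have hlt : (2 * m + 1 - 1) * d < 1 + 2 * m * d := by
    simp
  refine build hcard (by omega) G' H' φ ?_ ?_ ?_ ?_ ?_ ?_ ?_ ?_
  · rintro (_ | a) b hb
    · obtain rfl : b = none := by simpa [G'] using hb
      rfl
    · obtain ⟨c, hc, rfl⟩ : ∃ c, c ∈ G a ∧ some c = b := by simpa [G', some'] using hb
      simp only [φ, Option.elim, h1 a c hc]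
  · rintro (_ | a) b hb
    · obtain rfl : b = some b₀ := by simpa [H'] using hb
      exact hφ2 b₀
    · simp only [H', Option.elim] at hb
      split_ifs at hb with h
      · rcases Finset.mem_insert.1 hb with rfl | hb
        · exact (hφ2 a).symm
        · obtain ⟨c, hc, rfl⟩ := Finset.mem_map.1 hb
          exact hφne a c (h2 a c (Finset.mem_of_mem_erase hc))
      · obtain ⟨c, hc, rfl⟩ := Finset.mem_map.1 hb
        exact hφne a c (h2 a c hc)
  · rintro (_ | a)
    · rw [hGn]; exact hd
    · exact (hGs a).le
  · rintro (_ | a)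
    · rw [hHn]; exact hd
    · exact (hHs a).le
  · rintro (_ | b)
    · have : {a | none ∈ G' a} = {none} := by
        ext a
        rcases a with _ | a <;> simp [G', some']
      rw [this, Set.ncard_singleton]; exact hd
    · have : {a | some b ∈ G' a} = some '' {a | b ∈ G a} := by
        ext a
        rcases a with _ | a <;> simp [G', some']
      rw [this, Set.ncard_image_of_injective _ (Option.some_injective _)]
      exact h5 b
  · rintro (_ | b)
    · have : {a | none ∈ H' a} = {some a₀} := by
        ext a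
        rcases a with _ | a
        · simp [H']
        · simp only [H', Option.elim, Set.mem_ofPred_eq, Set.mem_singleton_iff, Option.some.injEq]
          split_ifs with h
          · simp [h]
          · simp [h, some']
      rw [this, Set.ncard_singleton]; exact hd
    · by_cases hb : b = b₀
      · subst hb
        have hsub : {a | some b ∈ H' a} ⊆ insert none (some '' ({a | b ∈ H a} \ {a₀})) := by
          rintro (_ | a) ha
          · simp
          · refine Set.mem_insert_of_mem _ ⟨a, ?_, rfl⟩
            have ha : some b ∈ H' (some a) := ha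
            simp only [H', Option.elim] at ha
            split_ifs at ha with h
            · simp [some'] at ha
            · exact ⟨by simpa [some'] using ha, h⟩
        have hmem : a₀ ∈ {a | b ∈ H a} := hb₀
        have hpos : ({a | b ∈ H a} \ {a₀}).ncard + 1 = {a | b ∈ H a}.ncard :=
          Set.ncard_diff_singleton_add_one hmem (Set.toFinite _)
        calc _ ≤ (insert none (some '' ({a | b ∈ H a} \ {a₀}))).ncard :=
              Set.ncard_le_ncard hsub (Set.toFinite _)
          _ ≤ (some '' ({a | b ∈ H a} \ {a₀})).ncard + 1 := Set.ncard_insert_le _ _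
          _ = ({a | b ∈ H a} \ {a₀}).ncard + 1 := by
              rw [Set.ncard_image_of_injective _ (Option.some_injective _)]
          _ = {a | b ∈ H a}.ncard := hpos
          _ ≤ d := h6 b
      · have hsub : {a | some b ∈ H' a} ⊆ some '' {a | b ∈ H a} := by
          rintro (_ | a) ha
          · exact absurd (by simpa [H'] using ha) hb
          · refine ⟨a, ?_, rfl⟩
            have ha : some b ∈ H' (some a) := ha
            simp only [H', Option.elim] at ha
            split_ifs at ha with h
            · have : b ≠ b₀ ∧ b ∈ H a := by simpa [some'] using ha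
              exact this.2
            · simpa [some'] using ha
        calc _ ≤ (some '' {a | b ∈ H a}).ncard := Set.ncard_le_ncard hsub (Set.toFinite _)
          _ = {a | b ∈ H a}.ncard := Set.ncard_image_of_injective _ (Option.some_injective _)
          _ ≤ d := h6 b
  · rw [Fintype.sum_option, hGn]
    simp only [hGs, Finset.sum_const, Finset.card_univ, hcard', smul_eq_mul]
    exact hlt
  · rw [Fintype.sum_option, hHn]
    simp only [hHs, Finset.sum_const, Finset.card_univ, hcard', smul_eq_mul]
    exact hlt

/-- For all `d ≥ 1` and all `k ≥ 2 d` there are `k` graphs on a finite vertex set that are bipartite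
with one common bipartition, have maximum degree at most `d` and more than `(k - 1) d` edges each,
and have no rainbow matching.  (The cases `d ≥ 2` refute the conjecture, also for graphs sharing
a bipartition.) -/
theorem exists_counterexample : ∀ d k : ℕ, 1 ≤ d → 2 * d ≤ k →
    ∃ (V : Type) (_ : Fintype V) (side : V → Bool) (F : Fin k → SimpleGraph V),
      IsCounterexample d k V side F := by
  intro d k hd hk
  rcases Nat.even_or_odd' k with ⟨m, rfl | rfl⟩
  · exact even_case d m hd (by omega)
  · exact odd_case d m hd (by omega)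

end Pool.Agent.Y870.RM
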