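import Mathlib

set_option autoImplicit false

/-!
# Rainbow matchings in graphs of bounded maximum degree: the positive range

`k` graphs of maximum degree at most `d`, each with more than `(k - 1) d` edges, have a rainbow
matching as soon as `d ≥ 4 (k - 1)`.  Proof: a vertex is *high* for a graph if its degree there is
at least `2 k - 1`.  Take a maximum partial system of distinct high representatives.  The graphs
without representative have all their high vertices among the representatives; for these graphs
edges avoiding all representatives can be chosen greedily.  Finally every representative is joined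
to an unused neighbour.
-/

namespace Pool.Agent.Y870.RM

open Finset Classical

variable {V : Type} [Fintype V]

/-- The number of edges meeting a set of vertices is at most the sum of the degrees. -/
lemma card_meeting (G : SimpleGraph V) (S : Finset V) :
    (G.edgeFinset.filter (fun e => ∃ v ∈ S, v ∈ e)).card ≤ ∑ v ∈ S, G.degree v := by
  have h : G.edgeFinset.filter (fun e => ∃ v ∈ S, v ∈ e) ⊆
      S.biUnion (fun v => G.incidenceFinset v) := by
    intro e he
    rw [mem_filter] at he
    obtain ⟨he, v, hv, hve⟩ := he
    rw [mem_biUnion]
    refine ⟨v, hv, ?_⟩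
    rw [SimpleGraph.mem_incidenceFinset]
    exact ⟨by simpa using he, hve⟩
  refine (card_le_card h).trans (card_biUnion_le.trans ?_)
  refine sum_le_sum fun v _ => ?_
  rw [SimpleGraph.card_incidenceFinset_eq_degree]

/-- An edge avoiding a set, if the degrees in the set are small. -/
lemma exists_edge_avoiding (G : SimpleGraph V) (S : Finset V)
    (h : ∑ v ∈ S, G.degree v < G.edgeFinset.card) :
    ∃ a b : V, G.Adj a b ∧ a ∉ S ∧ b ∉ S := by
  by_contra hcon
  push Not at hcon
  have : G.edgeFinset.filter (fun e => ∃ v ∈ S, v ∈ e) = G.edgeFinset := by
    rw [filter_eq_self]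
    intro e he
    induction e with
    | _ a b =>
      have hab : G.Adj a b := by simpa using he
      by_cases ha : a ∈ S
      · exact ⟨a, ha, by simp⟩
      · exact ⟨b, hcon a b hab ha, by simp⟩
  have h2 := card_meeting G S
  rw [this] at h2
  omega

/-- **The positive range.**  No bipartiteness is needed. -/
theorem exists_rainbow {k d : ℕ} (F : Fin k → SimpleGraph V)
    (hdeg : ∀ i v, (F i).degree v ≤ d) (hE : ∀ i, (k - 1) * d < (F i).edgeFinset.card)
    (hd : 4 * (k - 1) ≤ d) :
    ∃ x y : Fin k → V, (∀ i, (F i).Adj (x i) (y i)) ∧
      ∀ i j, i ≠ j → x i ≠ x j ∧ x i ≠ y j ∧ y i ≠ x j ∧ y i ≠ y j := by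
  rcases Nat.eq_zero_or_pos k with rfl | hk
  · exact ⟨fun i => i.elim0, fun i => i.elim0, fun i => i.elim0, fun i => i.elim0⟩
  -- high vertices
  set H : Fin k → Finset V := fun i => univ.filter (fun v => 2 * k - 1 ≤ (F i).degree v) with hH
  -- a maximum partial system of distinct representatives
  let P : Finset (Fin k) → Prop := fun J => ∃ f : Fin k → V, (∀ i ∈ J, f i ∈ H i) ∧
    Set.InjOn f (J : Set (Fin k))
  have hV : Nonempty V := by
    have h := hE ⟨0, hk⟩
    have h2 : 0 < (F ⟨0, hk⟩).edgeFinset.card := by omega
    obtain ⟨e, he⟩ := card_pos.1 h2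
    induction e with
    | _ a b => exact ⟨a⟩
  have hP0 : P ∅ := ⟨fun _ => hV.some, by simp, by simp⟩
  obtain ⟨J, hJmem, hJmax⟩ := (univ.filter P).exists_max_image card ⟨∅, by simpa using hP0⟩
  obtain ⟨f, hf, hinj⟩ : P J := by simpa using hJmem
  set R : Finset V := J.image f with hR
  have hRcard : R.card = J.card := card_image_of_injOn hinj
  have hHR : ∀ i, i ∉ J → H i ⊆ R := by
    intro i hi v hv
    by_contra hvR
    have hext : P (insert i J) := by
      refine ⟨Function.update f i v, ?_, ?_⟩
      · intro j hj
        rcases mem_insert.1 hj with rfl | hj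
        · simpa using hv
        · have hji : j ≠ i := fun h => hi (h ▸ hj)
          rw [Function.update_of_ne hji]
          exact hf j hj
      · intro a ha b hb hab
        rw [mem_coe, mem_insert] at ha hb
        by_cases hai : a = i
        · by_cases hbi : b = i
          · rw [hai, hbi]
          · have hbJ : b ∈ J := hb.resolve_left hbi
            rw [hai, Function.update_self, Function.update_of_ne hbi] at hab
            exact absurd (hab ▸ mem_image_of_mem f hbJ) hvR
        · have haJ : a ∈ J := ha.resolve_left hai
          by_cases hbi : b = i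
          · rw [hbi, Function.update_self, Function.update_of_ne hai] at hab
            exact absurd (hab ▸ mem_image_of_mem f haJ) hvR
          · have hbJ : b ∈ J := hb.resolve_left hbi
            rw [Function.update_of_ne hai, Function.update_of_ne hbi] at hab
            exact hinj haJ hbJ hab
    have h1 := hJmax (insert i J) (by simpa using hext)
    rw [card_insert_of_notMem hi] at h1
    omega
  have hJk : J.card + Jᶜ.card = k := by
    rw [card_add_card_compl, Fintype.card_fin]
  -- edges for the graphs without representative
  have step1 : ∀ T : Finset (Fin k), T ⊆ Jᶜ → ∃ x y : Fin k → V,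
      (∀ i ∈ T, (F i).Adj (x i) (y i)) ∧ (∀ i ∈ T, x i ∉ R ∧ y i ∉ R) ∧
      (∀ i ∈ T, ∀ j ∈ T, i ≠ j → x i ≠ x j ∧ x i ≠ y j ∧ y i ≠ x j ∧ y i ≠ y j) := by
    intro T
    induction T using Finset.induction_on with
    | empty => intro _; exact ⟨fun _ => hV.some, fun _ => hV.some, by simp, by simp, by simp⟩
    | insert i T hiT ih =>
      intro hT
      obtain ⟨x, y, h1, h2, h3⟩ := ih ((subset_insert i T).trans hT)
      have hiJ : i ∉ J := by
        have := hT (mem_insert_self i T)
        simpa using this
      set U : Finset V := T.image x ∪ T.image y with hU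
      have hUcard : U.card ≤ 2 * T.card := by
        calc U.card ≤ (T.image x).card + (T.image y).card := card_union_le _ _
          _ ≤ T.card + T.card := Nat.add_le_add card_image_le card_image_le
          _ = 2 * T.card := by ring
      have hTc : T.card + 1 ≤ Jᶜ.card := by
        have := card_le_card hT
        rwa [card_insert_of_notMem hiT] at this
      have hHi := hHR i hiJ
      have hhcard : (H i).card ≤ J.card := hRcard ▸ card_le_card hHi
      have hsum : ∑ v ∈ R ∪ U, (F i).degree v < (F i).edgeFinset.card := by
        have hsplit : ∑ v ∈ R ∪ U, (F i).degree v ≤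
            (H i).card * d + ((R ∪ U) \ H i).card * (2 * k - 2) := by
          have hsub : H i ⊆ R ∪ U := hHi.trans subset_union_left
          rw [← sum_sdiff hsub, add_comm]
          refine Nat.add_le_add ?_ ?_
          · calc ∑ v ∈ H i, (F i).degree v ≤ ∑ _v ∈ H i, d := sum_le_sum fun v _ => hdeg i v
              _ = (H i).card * d := by rw [sum_const, smul_eq_mul]
          · calc ∑ v ∈ (R ∪ U) \ H i, (F i).degree v
                ≤ ∑ _v ∈ (R ∪ U) \ H i, (2 * k - 2) := by
                  refine sum_le_sum fun v hv => ?_
                  have : v ∉ H i := (mem_sdiff.1 hv).2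
                  rw [hH, mem_filter] at this
                  push Not at this
                  have := this (mem_univ v)
                  omega
              _ = ((R ∪ U) \ H i).card * (2 * k - 2) := by rw [sum_const, smul_eq_mul]
        have hc : ((R ∪ U) \ H i).card + (H i).card ≤ J.card + 2 * T.card := by
          rw [card_sdiff_add_card_eq_card (hHi.trans subset_union_left)]
          calc (R ∪ U).card ≤ R.card + U.card := card_union_le _ _
            _ ≤ J.card + 2 * T.card := by rw [hRcard]; omega
        have hc2 : ((R ∪ U) \ H i).card ≤ 2 * (k - 1 - (H i).card) := by omega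
        have hle : (H i).card ≤ k - 1 := by omega
        have hEi := hE i
        calc ∑ v ∈ R ∪ U, (F i).degree v
            ≤ (H i).card * d + ((R ∪ U) \ H i).card * (2 * k - 2) := hsplit
          _ ≤ (H i).card * d + (2 * (k - 1 - (H i).card)) * (2 * k - 2) := by gcongr
          _ = (H i).card * d + (k - 1 - (H i).card) * (4 * (k - 1)) := by
              have : 2 * k - 2 = 2 * (k - 1) := by omega
              rw [this]; ring
          _ ≤ (H i).card * d + (k - 1 - (H i).card) * d := by gcongr
          _ = (k - 1) * d := by rw [← add_mul, Nat.add_sub_cancel' hle]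
          _ < (F i).edgeFinset.card := hEi
      obtain ⟨a, b, hab, haS, hbS⟩ := exists_edge_avoiding (F i) (R ∪ U) hsum
      rw [mem_union, not_or] at haS hbS
      have hx : ∀ j ∈ T, x j ∈ U := fun j hj => mem_union_left _ (mem_image_of_mem x hj)
      have hy : ∀ j ∈ T, y j ∈ U := fun j hj => mem_union_right _ (mem_image_of_mem y hj)
      have hne : ∀ j ∈ T, j ≠ i := fun j hj h => hiT (h ▸ hj)
      refine ⟨Function.update x i a, Function.update y i b, ?_, ?_, ?_⟩
      · intro j hj
        rcases mem_insert.1 hj with rfl | hj
        · simpa using hab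
        · rw [Function.update_of_ne (hne j hj), Function.update_of_ne (hne j hj)]
          exact h1 j hj
      · intro j hj
        rcases mem_insert.1 hj with rfl | hj
        · simpa using ⟨haS.1, hbS.1⟩
        · rw [Function.update_of_ne (hne j hj), Function.update_of_ne (hne j hj)]
          exact h2 j hj
      · intro j hj0 l hl0 hjl
        rcases mem_insert.1 hj0 with rfl | hj
        · rcases mem_insert.1 hl0 with rfl | hl
          · exact absurd rfl hjl
          · rw [Function.update_self, Function.update_self, Function.update_of_ne (hne l hl),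
              Function.update_of_ne (hne l hl)]
            exact ⟨fun h => haS.2 (h ▸ hx l hl), fun h => haS.2 (h ▸ hy l hl),
              fun h => hbS.2 (h ▸ hx l hl), fun h => hbS.2 (h ▸ hy l hl)⟩
        · rcases mem_insert.1 hl0 with rfl | hl
          · rw [Function.update_self, Function.update_self, Function.update_of_ne (hne j hj),
              Function.update_of_ne (hne j hj)]
            exact ⟨fun h => haS.2 (h ▸ hx j hj), fun h => hbS.2 (h ▸ hx j hj),
              fun h => haS.2 (h ▸ hy j hj), fun h => hbS.2 (h ▸ hy j hj)⟩
          · rw [Function.update_of_ne (hne j hj), Function.update_of_ne (hne j hj),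
              Function.update_of_ne (hne l hl), Function.update_of_ne (hne l hl)]
            exact h3 j hj l hl hjl
  -- the representatives are matched last
  have step2 : ∀ T : Finset (Fin k), T ⊆ J → ∃ x y : Fin k → V,
      (∀ i ∈ Jᶜ ∪ T, (F i).Adj (x i) (y i)) ∧
      (∀ i ∈ Jᶜ ∪ T, x i ∉ (J \ T).image f ∧ y i ∉ (J \ T).image f) ∧
      (∀ i ∈ Jᶜ ∪ T, ∀ j ∈ Jᶜ ∪ T, i ≠ j →
        x i ≠ x j ∧ x i ≠ y j ∧ y i ≠ x j ∧ y i ≠ y j) := by
    intro T
    induction T using Finset.induction_on with
    | empty =>
      intro _
      obtain ⟨x, y, h1, h2, h3⟩ := step1 Jᶜ le_rfl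
      refine ⟨x, y, by simpa using h1, ?_, by simpa using h3⟩
      rw [union_empty, sdiff_empty]
      exact h2
    | insert i T hiT ih =>
      intro hT
      obtain ⟨x, y, h1, h2, h3⟩ := ih ((subset_insert i T).trans hT)
      have hiJ : i ∈ J := hT (mem_insert_self i T)
      have hTJ : T ⊆ J := (subset_insert i T).trans hT
      set W : Finset (Fin k) := Jᶜ ∪ T with hW
      have hiW : i ∉ W := by
        rw [hW, mem_union, not_or]
        exact ⟨by simpa using hiJ, hiT⟩
      have hWcard : W.card ≤ Jᶜ.card + T.card := card_union_le _ _
      set U : Finset V := W.image x ∪ W.image y with hU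
      have hUcard : U.card ≤ 2 * W.card := by
        calc U.card ≤ (W.image x).card + (W.image y).card := card_union_le _ _
          _ ≤ W.card + W.card := Nat.add_le_add card_image_le card_image_le
          _ = 2 * W.card := by ring
      set D : Finset V := (J \ insert i T).image f with hD
      have hTc : (insert i T).card ≤ J.card := card_le_card hT
      rw [card_insert_of_notMem hiT] at hTc
      have hDcard : D.card + (T.card + 1) ≤ J.card := by
        have h4 : D.card ≤ (J \ insert i T).card := card_image_le
        have h5 := card_sdiff_add_card_eq_card hT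
        rw [card_insert_of_notMem hiT] at h5
        omega
      have hfi : 2 * k - 1 ≤ (F i).degree (f i) := by
        have := hf i hiJ
        rw [hH, mem_filter] at this
        exact this.2
      obtain ⟨w, hw1, hw2⟩ : ∃ w ∈ (F i).neighborFinset (f i), w ∉ U ∪ D := by
        by_contra hcon
        push Not at hcon
        have h4 : (F i).neighborFinset (f i) ⊆ U ∪ D := hcon
        have h5 := card_le_card h4
        have h6 : (U ∪ D).card ≤ U.card + D.card := card_union_le _ _
        rw [SimpleGraph.card_neighborFinset_eq_degree] at h5
        omega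
      rw [SimpleGraph.mem_neighborFinset] at hw1
      rw [mem_union, not_or] at hw2
      have hfiU : f i ∉ U := by
        have hmem : f i ∈ (J \ T).image f := mem_image_of_mem f (mem_sdiff.2 ⟨hiJ, hiT⟩)
        intro h
        rw [hU, mem_union, mem_image, mem_image] at h
        rcases h with ⟨j, hj, hjf⟩ | ⟨j, hj, hjf⟩
        · exact (h2 j hj).1 (hjf ▸ hmem)
        · exact (h2 j hj).2 (hjf ▸ hmem)
      have hfiD : f i ∉ D := by
        intro h
        rw [hD, mem_image] at h
        obtain ⟨j, hj, hjf⟩ := h
        rw [mem_sdiff, mem_insert, not_or] at hj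
        exact hj.2.1 (hinj hj.1 hiJ hjf)
      have hsub : D ⊆ (J \ T).image f := by
        refine image_subset_image ?_
        exact sdiff_subset_sdiff le_rfl (subset_insert i T)
      have hx : ∀ j ∈ W, x j ∈ U := fun j hj => mem_union_left _ (mem_image_of_mem x hj)
      have hy : ∀ j ∈ W, y j ∈ U := fun j hj => mem_union_right _ (mem_image_of_mem y hj)
      have hne : ∀ j ∈ W, j ≠ i := fun j hj h => hiW (h ▸ hj)
      have hWi : Jᶜ ∪ insert i T = insert i W := by
        rw [hW, union_insert]
      rw [hWi]
      refine ⟨Function.update x i (f i), Function.update y i w, ?_, ?_, ?_⟩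
      · intro j hj
        rcases mem_insert.1 hj with rfl | hj
        · simpa using hw1
        · rw [Function.update_of_ne (hne j hj), Function.update_of_ne (hne j hj)]
          exact h1 j hj
      · intro j hj
        rcases mem_insert.1 hj with rfl | hj
        · rw [Function.update_self, Function.update_self]
          exact ⟨hfiD, hw2.2⟩
        · rw [Function.update_of_ne (hne j hj), Function.update_of_ne (hne j hj)]
          exact ⟨fun h => (h2 j hj).1 (hsub h), fun h => (h2 j hj).2 (hsub h)⟩
      · intro j hj0 l hl0 hjl
        rcases mem_insert.1 hj0 with rfl | hj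
        · rcases mem_insert.1 hl0 with rfl | hl
          · exact absurd rfl hjl
          · rw [Function.update_self, Function.update_self, Function.update_of_ne (hne l hl),
              Function.update_of_ne (hne l hl)]
            exact ⟨fun h => hfiU (h ▸ hx l hl), fun h => hfiU (h ▸ hy l hl),
              fun h => hw2.1 (h ▸ hx l hl), fun h => hw2.1 (h ▸ hy l hl)⟩
        · rcases mem_insert.1 hl0 with rfl | hl
          · rw [Function.update_self, Function.update_self, Function.update_of_ne (hne j hj),
              Function.update_of_ne (hne j hj)]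
            exact ⟨fun h => hfiU (h ▸ hx j hj), fun h => hw2.1 (h ▸ hx j hj),
              fun h => hfiU (h ▸ hy j hj), fun h => hw2.1 (h ▸ hy j hj)⟩
          · rw [Function.update_of_ne (hne j hj), Function.update_of_ne (hne j hj),
              Function.update_of_ne (hne l hl), Function.update_of_ne (hne l hl)]
            exact h3 j hj l hl hjl
  obtain ⟨x, y, h1, h2, h3⟩ := step2 J le_rfl
  have hall : ∀ i : Fin k, i ∈ Jᶜ ∪ J := fun i => by
    rw [mem_union, mem_compl]; exact (Classical.em _).symm
  exact ⟨x, y, fun i => h1 i (hall i), fun i j hij => h3 i (hall i) j (hall j) hij⟩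

end Pool.Agent.Y870.RM
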